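import Pool.Agent.H968R2.Quad.Model
import Pool.Agent.H918R2.Quad.Defs

/-!
Statements of the lemmas of the project GF (MP_6a3dac_ag): regular models over Dedekind rings with
a given generic fibre.

A scheme `Z` over `S` with a point `η : Spec F ⟶ Z` is described by the subrings `A t` of the
field `F` which are the coordinate rings of the members of an affine open covering.
-/

set_option autoImplicit false

open AlgebraicGeometry CategoryTheory Limits Pointwise

namespace Pool.Agent.W559.GF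

open Pool.Agent.H968R2.Quad Pool.Agent.H918R2.Quad

/-- The open subset `U` of `Z` is the spectrum of the subring `A` of `F`, in such a way that
`Spec F ⟶ Spec A` becomes the given morphism `η`. -/
def IsChart {F : Type} [Field F] {Z : Scheme.{0}} (η : Spec (CommRingCat.of F) ⟶ Z)
    (A : Subring F) (U : Z.Opens) : Prop :=
  ∃ (j : Spec (CommRingCat.of A) ⟶ Z) (_ : IsOpenImmersion j), j.opensRange = U ∧
    Spec.map (CommRingCat.ofHom A.subtype) ≫ j = η

/-- The spectra of the subrings `A t` of `F` form an open covering of `Z`. -/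
def IsAtlas {F : Type} [Field F] {S Z : Scheme.{0}} (s : Spec (CommRingCat.of F) ⟶ S)
    (f : Z ⟶ S) {T : Type} (A : T → Subring F) : Prop :=
  ∃ η : Spec (CommRingCat.of F) ⟶ Z, η ≫ f = s ∧
    ∃ U : T → Z.Opens, (⨆ t, U t = ⊤) ∧ ∀ t, IsChart η (A t) (U t)

/-- Two schemes with the same atlas are isomorphic. -/
def IsoStm : Prop := ∀ (R F : Type) [CommRing R] [Field F] (Z Z' : Scheme.{0})
  (s : Spec (CommRingCat.of F) ⟶ Spec (CommRingCat.of R)) (f : Z ⟶ Spec (CommRingCat.of R))
  (f' : Z' ⟶ Spec (CommRingCat.of R)), IsSeparated f → IsSeparated f' →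
  ∀ (T : Type) (A : T → Subring F), IsAtlas s f A → IsAtlas s f' A →
  ∃ e : Z ≅ Z', e.hom ≫ f' = f

/-- The atlas of the projective model attached to a submodule `M` of `F`. -/
def ModStm : Prop := ∀ (O F : Type) [CommRing O] [Field F] [Algebra O F] (M : Submodule O F)
  (T : Type) [Nonempty T] (m : T → F), (∀ t, m t ∈ M) → (∀ t, m t ≠ 0) →
  ∀ G : Set F, Submodule.span O G = M →
  (∀ y ∈ G, ∃ k : ℕ, y ^ (k + 1) ∈ Submodule.span O (Set.range m) * M ^ k) →
  IsAtlas (Spec.map (CommRingCat.ofHom (algebraMap O F))) (modelMap M)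
    (fun t => (chart O M (m t)).toSubring)

/-- The generic fibre. -/
def BcStm : Prop := ∀ (O K F : Type) [CommRing O] [IsDomain O] [Field K] [Algebra O K]
  [IsFractionRing O K] [Field F] [Algebra K F] [Algebra O F] [IsScalarTower O K F]
  (Z : Scheme.{0}) (f : Z ⟶ Spec (CommRingCat.of O)) (T : Type) (A : T → Subring F),
  IsAtlas (Spec.map (CommRingCat.ofHom (algebraMap O F))) f A →
  IsAtlas (Spec.map (CommRingCat.ofHom (algebraMap K F)))
    (pullback.snd f (Spec.map (CommRingCat.ofHom (algebraMap O K))))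
    (fun t => (Algebra.adjoin K (A t : Set F)).toSubring)

/-- Flatness over Dedekind rings. -/
def FlatStm : Prop := ∀ (O F : Type) [CommRing O] [IsDedekindDomain O] [Field F] [Algebra O F],
  Function.Injective (algebraMap O F) → ∀ (Z : Scheme.{0}) (f : Z ⟶ Spec (CommRingCat.of O))
  (T : Type) (A : T → Subring F),
  IsAtlas (Spec.map (CommRingCat.ofHom (algebraMap O F))) f A → Flat f

attribute [local instance] MvPolynomial.gradedAlgebra

section

variable (K ι : Type) [Field K]

/-- The projective space over `K` with homogeneous coordinates indexed by `ι`. -/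
noncomputable def PN : Scheme.{0} := Proj (MvPolynomial.homogeneousSubmodule ι K)

/-- The structure morphism of the projective space. -/
noncomputable def PNstr : PN K ι ⟶ Spec (CommRingCat.of K) :=
  Proj.toSpecZero (MvPolynomial.homogeneousSubmodule ι K) ≫
    Spec.map (CommRingCat.ofHom (algebraMap K (MvPolynomial.homogeneousSubmodule ι K 0)))

end

/-- The morphism `f` makes `X` the hypersurface `Φ = 0` in the projective space over `K`: there is
a closed immersion of `X` over `K` onto the set of zeros of `Φ`, and `X` is reduced. -/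
def IsHyp {K ι : Type} [Field K] (Φ : MvPolynomial ι K) {X : Scheme.{0}}
    (f : X ⟶ Spec (CommRingCat.of K)) : Prop :=
  IsReduced X ∧ ∃ j : X ⟶ PN K ι, IsClosedImmersion j ∧ j ≫ PNstr K ι = f ∧
    Set.range j = {y : ProjectiveSpectrum (MvPolynomial.homogeneousSubmodule ι K) |
      Φ ∈ y.asHomogeneousIdeal}

/-- The atlas of a hypersurface. -/
def HypStm : Prop := ∀ (K F ι : Type) [Field K] [Field F] [Algebra K F] [Fintype ι] [Nonempty ι]
  (d : ℕ) (Φ : MvPolynomial ι K), Φ.IsHomogeneous d → 1 ≤ d → ∀ x : ι → F, (∀ i, x i ≠ 0) →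
  MvPolynomial.aeval x Φ = 0 →
  (∀ (e : ℕ) (G : MvPolynomial ι K), G.IsHomogeneous e → MvPolynomial.aeval x G = 0 → Φ ∣ G) →
  ∀ (X : Scheme.{0}) (f : X ⟶ Spec (CommRingCat.of K)), IsHyp Φ f →
  IsAtlas (Spec.map (CommRingCat.ofHom (algebraMap K F))) f
    (fun i => (Algebra.adjoin K (Set.range fun j => x j / x i)).toSubring)

/-- Homogeneous relations: if `Φ` generates the relations of `x 1, x 2, …` in the chart `x 0 = 1`
then every homogeneous relation is divisible by `Φ`. -/
def RelStm : Prop := ∀ (K F : Type) [Field K] [Field F] [Algebra K F] (N d : ℕ)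
  (Φ : MvPolynomial (Fin (N + 1)) K), Φ.IsHomogeneous d → ¬ (MvPolynomial.X 0 ∣ Φ) →
  ∀ x : Fin (N + 1) → F, x 0 = 1 →
  (∀ P : MvPolynomial (Fin N) K, MvPolynomial.aeval (fun i => x i.succ) P = 0 →
    MvPolynomial.aeval (Fin.cons 1 MvPolynomial.X : Fin (N + 1) → MvPolynomial (Fin N) K) Φ ∣ P) →
  ∀ (e : ℕ) (G : MvPolynomial (Fin (N + 1)) K), G.IsHomogeneous e →
    MvPolynomial.aeval x G = 0 → Φ ∣ G

/-- Diagonalization of quadratic forms. -/
def DiagStm : Prop := ∀ (K : Type) [Field K] [CharZero K] (N : ℕ)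
  (Φ : MvPolynomial (Fin (N + 1)) K), Φ.IsHomogeneous 2 →
  (∀ v : Fin (N + 1) → K, (∀ i, MvPolynomial.eval v (MvPolynomial.pderiv i Φ) = 0) → v = 0) →
  ∃ (g g' : Matrix (Fin (N + 1)) (Fin (N + 1)) K) (w : Fin (N + 1) → K), g * g' = 1 ∧
    (∀ i, w i ≠ 0) ∧
    MvPolynomial.aeval (fun i => ∑ j, MvPolynomial.C (g i j) * MvPolynomial.X j :
      Fin (N + 1) → MvPolynomial (Fin (N + 1)) K) Φ =
    ∑ i, MvPolynomial.C (w i) * MvPolynomial.X i ^ 2

/-- Relations after a linear change of coordinates: here `Ψ` is `Φ` in the new coordinates. -/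
def LinStm : Prop := ∀ (K F : Type) [Field K] [Field F] [Algebra K F] (N d : ℕ)
  (Φ Ψ : MvPolynomial (Fin (N + 1)) K), Ψ.IsHomogeneous d → 2 ≤ d → Ψ ≠ 0 →
  ∀ (g g' : Matrix (Fin (N + 1)) (Fin (N + 1)) K), g * g' = 1 →
  MvPolynomial.aeval (fun i => ∑ j, MvPolynomial.C (g i j) * MvPolynomial.X j :
      Fin (N + 1) → MvPolynomial (Fin (N + 1)) K) Φ = Ψ →
  ∀ x : Fin (N + 1) → F, MvPolynomial.aeval x Ψ = 0 →
  (∀ (e : ℕ) (G : MvPolynomial (Fin (N + 1)) K), G.IsHomogeneous e →
    MvPolynomial.aeval x G = 0 → Ψ ∣ G) →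
  MvPolynomial.aeval (fun i => ∑ j, algebraMap K F (g i j) * x j) Φ = 0 ∧
  (∀ i, ∑ j, algebraMap K F (g i j) * x j ≠ 0) ∧
  Submodule.span K (Set.range fun i => ∑ j, algebraMap K F (g i j) * x j) =
    Submodule.span K (Set.range x) ∧
  ∀ (e : ℕ) (G : MvPolynomial (Fin (N + 1)) K), G.IsHomogeneous e →
    MvPolynomial.aeval (fun i => ∑ j, algebraMap K F (g i j) * x j) G = 0 → Φ ∣ G

end Pool.Agent.W559.GF
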