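import Pool.Agent.W559.GF.Stm

/-!
Modules with regular charts which are commensurable with the forms of some degree.
-/

set_option autoImplicit false

open scoped Pointwise

namespace Pool.Agent.W559.GF

open Pool.Agent.H918R2.Quad Pool.Agent.H968R2.Quad

/-- There is a finitely generated `O`-submodule of `F` with regular charts which is commensurable
with the module of the forms of degree `D ≥ 1` in the `x i`. -/
def HasModX (O : Type) {F ι : Type} [CommRing O] [Field F] [Algebra O F] (x : ι → F) : Prop :=
  ∃ D : ℕ, 1 ≤ D ∧ ∃ M : Submodule O F, M.FG ∧ M ≤ Submodule.span O (Set.range x ^ D) ∧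
    (∀ y ∈ Submodule.span O (Set.range x ^ D), ∃ s : O, s ≠ 0 ∧ s • y ∈ M) ∧
    ∀ f ∈ M, f ≠ 0 → ∀ (q : Ideal (chart O M f)) [q.IsPrime],
      IsRegularLocalRing (Localization.AtPrime q)

end Pool.Agent.W559.GF
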