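import Pool.Agent.H968R2.Quad.ExistsModel
import Pool.Agent.W559.GF.HasMod

/-!
The assembly: from modules with regular charts to regular models with a given generic fibre.
-/

set_option autoImplicit false
set_option linter.unusedSectionVars false

open AlgebraicGeometry CategoryTheory Limits Pointwise

namespace Pool.Agent.W559.GF

open Pool.Agent.H918R2.Quad Pool.Agent.H968R2.Quad

section

variable {O K F : Type} [CommRing O] [IsDedekindDomain O] [Field K] [Algebra O K]
  [IsFractionRing O K] [Field F] [Algebra K F] [Algebra O F] [IsScalarTower O K F]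

theorem adjoin_chart (M : Submodule O F) (t : F) :
    (Algebra.adjoin K ((chart O M t).toSubring : Set F)).toSubring =
      (chart K (Submodule.span K (M : Set F)) t).toSubring := by
  have h : Algebra.adjoin K ((chart O M t : Subalgebra O F) : Set F) =
      chart K (Submodule.span K (M : Set F)) t := by
    apply le_antisymm
    · rw [Algebra.adjoin_le_iff]
      have h1 : chart O M t ≤ (chart K (Submodule.span K (M : Set F)) t).restrictScalars O := by
        refine Algebra.adjoin_le ?_
        rintro _ ⟨m, hm, rfl⟩
        exact Algebra.subset_adjoin ⟨m, Submodule.subset_span hm, rfl⟩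
      intro z hz
      exact h1 hz
    · refine Algebra.adjoin_le ?_
      rintro _ ⟨m, hm, rfl⟩
      change m / t ∈ Algebra.adjoin K ((chart O M t : Subalgebra O F) : Set F)
      induction hm using Submodule.span_induction with
      | mem m hm =>
        exact Algebra.subset_adjoin (Algebra.subset_adjoin ⟨m, hm, rfl⟩)
      | zero => rw [zero_div]; exact Subalgebra.zero_mem _
      | add a b _ _ ha hb => rw [add_div]; exact Subalgebra.add_mem _ ha hb
      | smul c a _ ha => rw [smul_div_assoc]; exact Subalgebra.smul_mem _ ha c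
  exact congrArg Subalgebra.toSubring h

theorem chart_pow {ι : Type} (y : ι → F) (hy : ∀ i, y i ≠ 0) (k : ℕ) (i : ι) :
    chart K (Submodule.span K (Set.range y) ^ (k + 1)) (y i ^ (k + 1)) =
      Algebra.adjoin K (Set.range fun j => y j / y i) := by
  apply le_antisymm
  · refine Algebra.adjoin_le ?_
    rintro _ ⟨m, hm, rfl⟩
    rw [Submodule.span_pow] at hm
    have key : ∀ n : ℕ, ∀ g ∈ Set.range y ^ n,
        g / y i ^ n ∈ Algebra.adjoin K (Set.range fun j => y j / y i) := by
      intro n
      induction n with
      | zero =>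
        intro g hg
        rw [pow_zero, Set.mem_one] at hg
        rw [hg, pow_zero, div_one]
        exact Subalgebra.one_mem _
      | succ n ih =>
        intro g hg
        rw [pow_succ] at hg
        obtain ⟨a, ha, _, ⟨j, rfl⟩, rfl⟩ := hg
        have : a * y j / y i ^ (n + 1) = (a / y i ^ n) * (y j / y i) := by
          rw [pow_succ, mul_div_mul_comm]
        change a * y j / y i ^ (n + 1) ∈ _
        rw [this]
        exact Subalgebra.mul_mem _ (ih a ha) (Algebra.subset_adjoin ⟨j, rfl⟩)
    change m / y i ^ (k + 1) ∈ Algebra.adjoin K (Set.range fun j => y j / y i)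
    induction hm using Submodule.span_induction with
    | mem m hm => exact key _ m hm
    | zero => rw [zero_div]; exact Subalgebra.zero_mem _
    | add a b _ _ ha hb => rw [add_div]; exact Subalgebra.add_mem _ ha hb
    | smul c a _ ha => rw [smul_div_assoc]; exact Subalgebra.smul_mem _ ha c
  · refine Algebra.adjoin_le ?_
    rintro _ ⟨j, rfl⟩
    refine Algebra.subset_adjoin ⟨y i ^ k * y j, ?_, ?_⟩
    · rw [pow_succ]
      exact Submodule.mul_mem_mul (Submodule.pow_mem_pow _ (Submodule.subset_span (Set.mem_range_self i)) _)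
        (Submodule.subset_span ⟨j, rfl⟩)
    · change y j / y i = _
      rw [pow_succ, mul_div_mul_left _ _ (pow_ne_zero k (hy i))]

theorem mainX (hISO : IsoStm) (hMOD : ModStm) (hBC : BcStm) (hFLAT : FlatStm)
    {ι : Type} [Fintype ι] [Nonempty ι]
    (x y : ι → F) (hM : HasModX O x) (hy : ∀ i, y i ≠ 0)
    (hxy : Submodule.span K (Set.range y) = Submodule.span K (Set.range x))
    (X : Scheme.{0}) (f : X ⟶ Spec (CommRingCat.of K)) (hsep : IsSeparated f)
    (hX : IsAtlas (Spec.map (CommRingCat.ofHom (algebraMap K F))) f
      (fun i => (Algebra.adjoin K (Set.range fun j => y j / y i)).toSubring)) :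
    ∃ (Y : Scheme.{0}) (g : Y ⟶ Spec (CommRingCat.of O)), IsProper g ∧ Flat g ∧
      (∀ y : Y, ringKrullDim (Y.presheaf.stalk y) =
        (((Module.finrank (IsLocalRing.ResidueField (Y.presheaf.stalk y))
          (IsLocalRing.CotangentSpace (Y.presheaf.stalk y)) : ℕ) : ℕ∞) : WithBot ℕ∞)) ∧
      ∃ e : pullback g (Spec.map (CommRingCat.ofHom (algebraMap O K))) ≅ X,
        e.hom ≫ f = pullback.snd g (Spec.map (CommRingCat.ofHom (algebraMap O K))) := by
  classical
  have hOK : Function.Injective (algebraMap O K) := IsFractionRing.injective O K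
  have hOF : Function.Injective (algebraMap O F) := by
    rw [IsScalarTower.algebraMap_eq O K F]
    exact (algebraMap K F).injective.comp hOK
  obtain ⟨D, hD, M, hFG, hle, hcomm, hreg⟩ := hM
  -- the module over `K`
  set V : Submodule K F := Submodule.span K (M : Set F) with hV
  have hVFG : V.FG := by
    obtain ⟨s, hs⟩ := hFG
    refine ⟨s, ?_⟩
    rw [hV, ← hs]
    exact (Submodule.span_span_of_tower O K (s : Set F)).symm
  have hspanO : ∀ s : Set F, (Submodule.span O s : Set F) ⊆ Submodule.span K s := fun s z hz =>
    Submodule.span_le_restrictScalars O K s hz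
  have hVx : V = Submodule.span K (Set.range x) ^ D := by
    rw [Submodule.span_pow]
    apply le_antisymm
    · refine Submodule.span_le.2 fun z hz => ?_
      exact hspanO _ (hle hz)
    · refine Submodule.span_le.2 fun z hz => ?_
      obtain ⟨s, hs, hsz⟩ := hcomm z (Submodule.subset_span hz)
      have h1 : s • z ∈ V := Submodule.subset_span hsz
      have hsK : algebraMap O K s ≠ 0 := fun h => hs (hOK (by rw [h, map_zero]))
      have h2 : z = (algebraMap O K s)⁻¹ • (s • z) := by
        rw [← algebraMap_smul K s z, smul_smul, inv_mul_cancel₀ hsK, one_smul]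
      rw [h2]
      exact V.smul_mem _ h1
  obtain ⟨k, rfl⟩ : ∃ k, D = k + 1 := ⟨D - 1, by omega⟩
  have hVy : V = Submodule.span K (Set.range y) ^ (k + 1) := by rw [hVx, hxy]
  let T : Type := {t : F // t ∈ M ∧ t ≠ 0}
  have hTne : Nonempty T := by
    obtain ⟨i⟩ := ‹Nonempty ι›
    by_contra hcon
    have hM0 : ∀ t ∈ M, t = 0 := by
      intro t ht
      by_contra h0
      exact hcon ⟨⟨t, ht, h0⟩⟩
    have hV0 : V = ⊥ := by
      rw [hV, Submodule.span_eq_bot]
      exact hM0
    have h1 : y i ^ (k + 1) ∈ V := by
      rw [hVy]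
      exact Submodule.pow_mem_pow _ (Submodule.subset_span (Set.mem_range_self i)) _
    rw [hV0, Submodule.mem_bot] at h1
    exact pow_ne_zero _ (hy i) h1
  -- the atlases
  have hA1 : IsAtlas (Spec.map (CommRingCat.ofHom (algebraMap O F))) (modelMap M)
      (fun t : T => (chart O M t.1).toSubring) := by
    refine hMOD O F M T (fun t => t.1) (fun t => t.2.1) (fun t => t.2.2) (M : Set F)
      (Submodule.span_eq M) ?_
    intro z hz
    refine ⟨0, ?_⟩
    rw [pow_zero, mul_one, zero_add, pow_one]
    by_cases h0 : z = 0
    · rw [h0]; exact Submodule.zero_mem _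
    · exact Submodule.subset_span ⟨⟨z, hz, h0⟩, rfl⟩
  have hA2 : IsAtlas (Spec.map (CommRingCat.ofHom (algebraMap K F)))
      (pullback.snd (modelMap M) (Spec.map (CommRingCat.ofHom (algebraMap O K))))
      (fun t : T => (chart K V t.1).toSubring) := by
    have := hBC O K F (model M) (modelMap M) T _ hA1
    have h2 : (fun t : T => (Algebra.adjoin K ((chart O M t.1).toSubring : Set F)).toSubring) =
        fun t : T => (chart K V t.1).toSubring := by
      funext t
      exact adjoin_chart M t.1
    rw [← h2]
    exact this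
  have hA3 : IsAtlas (Spec.map (CommRingCat.ofHom (algebraMap K F))) (modelMap V)
      (fun t : T => (chart K V t.1).toSubring) := by
    refine hMOD K F V T (fun t => t.1) (fun t => Submodule.subset_span t.2.1) (fun t => t.2.2)
      (M : Set F) rfl ?_
    intro z hz
    refine ⟨0, ?_⟩
    rw [pow_zero, mul_one, zero_add, pow_one]
    by_cases h0 : z = 0
    · rw [h0]; exact Submodule.zero_mem _
    · exact Submodule.subset_span ⟨⟨z, hz, h0⟩, rfl⟩
  have hA4 : IsAtlas (Spec.map (CommRingCat.ofHom (algebraMap K F))) (modelMap V)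
      (fun i => (Algebra.adjoin K (Set.range fun j => y j / y i)).toSubring) := by
    have h1 : (fun i => (Algebra.adjoin K (Set.range fun j => y j / y i)).toSubring) =
        fun i => (chart K V (y i ^ (k + 1))).toSubring := by
      funext i
      rw [hVy, chart_pow y hy k i]
    rw [h1]
    refine hMOD K F V ι (fun i => y i ^ (k + 1)) ?_ (fun i => pow_ne_zero _ (hy i))
      (Set.range y ^ (k + 1)) ?_ ?_
    · intro i
      rw [hVy]
      exact Submodule.pow_mem_pow _ (Submodule.subset_span (Set.mem_range_self i)) _
    · rw [hVy, Submodule.span_pow]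
    · intro z hz
      refine ⟨k, ?_⟩
      rw [pow_succ] at hz
      obtain ⟨a, ha, _, ⟨i, rfl⟩, rfl⟩ := hz
      change (a * y i) ^ (k + 1) ∈ _
      rw [mul_comm a, mul_pow]
      refine Submodule.mul_mem_mul (Submodule.subset_span ⟨i, rfl⟩) ?_
      have h2 : a ∈ Submodule.span K (Set.range y) ^ k := by
        rw [Submodule.span_pow]
        exact Submodule.subset_span ha
      have h3 : a ^ (k + 1) ∈ (Submodule.span K (Set.range y) ^ k) ^ (k + 1) :=
        Submodule.pow_mem_pow _ h2 _
      rw [hVy, ← pow_mul, mul_comm (k + 1) k, pow_mul]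
      exact h3
  have hpM : IsProper (modelMap M) := modelMap_isProper M hOF hFG
  have hpV : IsProper (modelMap V) := modelMap_isProper V (algebraMap K F).injective hVFG
  have hsV : IsSeparated (modelMap V) := inferInstance
  have hsP : IsSeparated
      (pullback.snd (modelMap M) (Spec.map (CommRingCat.ofHom (algebraMap O K)))) := inferInstance
  obtain ⟨e1, he1⟩ := hISO K F _ _ _ _ _ hsP hsV T _ hA2 hA3
  obtain ⟨e2, he2⟩ := hISO K F _ _ _ _ _ hsV hsep ι _ hA4 hX
  refine ⟨model M, modelMap M, hpM, hFLAT O F hOF (model M) (modelMap M) T _ hA1, ?_,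
    e1 ≪≫ e2, ?_⟩
  · intro z
    have hz : IsRegularLocalRing ((model M).presheaf.stalk z) := stalk_regular M hreg z
    have := (IsRegularLocalRing.iff_finrank_cotangentSpace _).1 hz
    rw [← this]
    rfl
  · rw [Iso.trans_hom, Category.assoc, he2, he1]

end

end Pool.Agent.W559.GF
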