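import Pool.Agent.H945R2.R.All
import Pool.Agent.H945R2.S.FLDM
import Pool.Agent.H918R2.Quad.Final2
import Pool.Agent.W559.GF.HasMod

/-!
Modules with regular charts which are commensurable with the forms of some degree.
The proofs follow Pool/Agent/H945R2/E/GLOG.lean, Pool/Agent/H945R2/R/GLOR.lean and
Pool/Agent/H918R2/Quad/Global.lean.
-/

set_option autoImplicit false
set_option linter.unusedSectionVars false

open scoped Pointwise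

namespace Pool.Agent.W559.GF

open Pool.Agent.H918R2.Quad Pool.Agent.H945R2.D Pool.Agent.H945R2.S Pool.Agent.H945R2.E
  Pool.Agent.H945R2.R MvPolynomial

/-- Gluing. -/
theorem glogX {O K F : Type} [CommRing O] [IsDedekindDomain O] [Field K] [Algebra O K]
    [IsFractionRing O K] [Field F] [Algebra K F] [Algebra O F] [IsScalarTower O K F] {n : ℕ}
    (x : Fin (n + 2) → F)
    (S : Finset (Ideal O)) (hSm : ∀ 𝔭 ∈ S, 𝔭.IsMaximal ∧ 𝔭 ≠ ⊥) (hloc : ∀ 𝔭 ∈ S, LocMod 𝔭 x)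
    (hout : ∀ 𝔭 : Ideal O, 𝔭.IsPrime → 𝔭 ∉ S → ∀ D : ℕ, 1 ≤ D → ∀ M : Submodule O F,
      M ≤ Submodule.span O (Set.range x ^ D) →
      (∀ y ∈ Submodule.span O (Set.range x ^ D), ∃ s, s ∉ 𝔭 ∧ s • y ∈ M) → RegAt 𝔭 M) :
    HasModX O x := by
  classical
  have hOK : Function.Injective (algebraMap O K) := IsFractionRing.injective O K
  have hOF : Function.Injective (algebraMap O F) := by
    rw [IsScalarTower.algebraMap_eq O K F]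
    exact (algebraMap K F).injective.comp hOK
  have hS0 : ∀ 𝔭 ∈ S, 𝔭 ≠ ⊥ := fun 𝔭 h𝔭 => (hSm 𝔭 h𝔭).2
  have hSmax : ∀ 𝔭 ∈ S, 𝔭.IsMaximal := fun 𝔭 h𝔭 => (hSm 𝔭 h𝔭).1
  -- the degree
  have hdeg : ∀ 𝔭 : Ideal O, ∃ D₀ : ℕ, 𝔭 ∈ S → ∀ D, D₀ ≤ D → ∃ P : Submodule O F,
      (∀ y ∈ P, ∃ s, s ∉ 𝔭 ∧ s • y ∈ Submodule.span O (Set.range x ^ D)) ∧
      (∃ k : ℕ, ∀ c ∈ 𝔭 ^ k, ∀ y ∈ Submodule.span O (Set.range x ^ D), c • y ∈ P) ∧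
      ∀ M : Submodule O F, M ≤ P → (∀ y ∈ P, ∃ s, s ∉ 𝔭 ∧ s • y ∈ M) → RegAt 𝔭 M := by
    intro 𝔭
    by_cases h𝔭 : 𝔭 ∈ S
    · obtain ⟨D₀, hD₀⟩ := hloc 𝔭 h𝔭
      exact ⟨D₀, fun _ => hD₀⟩
    · exact ⟨0, fun h => absurd h h𝔭⟩
  choose D₀ hD₀ using hdeg
  set D : ℕ := max 1 (S.sup D₀) with hD
  have hD1 : 1 ≤ D := le_max_left _ _
  have hDS : ∀ 𝔭 ∈ S, D₀ 𝔭 ≤ D := fun 𝔭 h𝔭 => (Finset.le_sup h𝔭).trans (le_max_right _ _)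
  have hbad : ∀ 𝔭 : Ideal O, ∃ P : Submodule O F, 𝔭 ∈ S →
      ((∀ y ∈ P, ∃ s, s ∉ 𝔭 ∧ s • y ∈ Submodule.span O (Set.range x ^ D)) ∧
      (∃ k : ℕ, ∀ c ∈ 𝔭 ^ k, ∀ y ∈ Submodule.span O (Set.range x ^ D), c • y ∈ P) ∧
      ∀ M : Submodule O F, M ≤ P → (∀ y ∈ P, ∃ s, s ∉ 𝔭 ∧ s • y ∈ M) → RegAt 𝔭 M) := by
    intro 𝔭
    by_cases h𝔭 : 𝔭 ∈ S
    · obtain ⟨P, hP⟩ := hD₀ 𝔭 h𝔭 D (hDS 𝔭 h𝔭)
      exact ⟨P, fun _ => hP⟩
    · exact ⟨⊥, fun h => absurd h h𝔭⟩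
  choose P hP using hbad
  obtain ⟨M, hMN, hMP, hM1, hM2⟩ := glue (Submodule.span O (Set.range x ^ D)) S hSmax P
    (fun 𝔭 h𝔭 => (hP 𝔭 h𝔭).1) (fun 𝔭 h𝔭 => (hP 𝔭 h𝔭).2.1)
  have hbotS : (⊥ : Ideal O) ∉ S := fun h => hS0 ⊥ h rfl
  have hMbot : ∀ y ∈ Submodule.span O (Set.range x ^ D), ∃ s : O, s ≠ 0 ∧ s • y ∈ M := by
    intro y hy
    obtain ⟨s, hs, hsy⟩ := hM2 ⊥ Ideal.isPrime_bot hbotS y hy
    exact ⟨s, fun h => hs (by rw [h]; exact Ideal.zero_mem _), hsy⟩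
  refine ⟨D, hD1, M, ?_, hMN, hMbot, ?_⟩
  · have hG3 : (Set.range x ^ D).Finite := by
      generalize D = k
      induction k with
      | zero => rw [pow_zero]; exact Set.finite_one
      | succ k ih => rw [pow_succ]; exact ih.mul (Set.finite_range x)
    exact Submodule.FG.of_le (Submodule.fg_span hG3) hMN
  · intro f hfM hf0 q hq
    have hpp : (q.comap (algebraMap O (chart O M f))).IsPrime := inferInstance
    by_cases h𝔭 : q.comap (algebraMap O (chart O M f)) ∈ S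
    · exact (hP _ h𝔭).2.2 M (hMP _ h𝔭) (hM1 _ h𝔭) f hfM hf0 q rfl
    · exact hout _ hpp h𝔭 D hD1 M hMN (hM2 _ hpp h𝔭) f hfM hf0 q rfl

/-- Diagonal hypersurfaces. -/
theorem glorX_aux (hB : BadM) (hE : S_BADE) (hT : S_BADT) (hR : S_BADR) (hG : S_GOODM)
    (hA : S_ARIR) {O K F : Type} [CommRing O] [IsDedekindDomain O] [Field K] [Algebra O K]
    [IsFractionRing O K] [Field F] [Algebra K F] [Algebra O F] [IsScalarTower O K F] [CharZero K]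
    (hfin : ∀ 𝔭 : Ideal O, 𝔭.IsPrime → 𝔭 ≠ ⊥ → Finite (O ⧸ 𝔭)) {k : ℕ} (m : ℕ) (hm : 3 ≤ m)
    (hsq : Squarefree m) (a : Fin (k + 2) → O) (ha : HypR m a)
    (x : Fin (k + 2) → F) (hx0 : x 0 = 1) (hrel : ∑ i, algebraMap O F (a i) * x i ^ m = 0)
    (hgen : IntermediateField.adjoin K (Set.range x) = ⊤)
    (hlin : ∀ e : ℕ, 1 ≤ e → e < m → LinearIndependent K (fun i => x i ^ e))
    (b : Fin k → F) (htb : IsTranscendenceBasis K b) : HasModX O x := by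
  classical
  have hO : CharZero O := ⟨fun i j h => Nat.cast_injective (R := K) (by
    simpa only [map_natCast] using congrArg (algebraMap O K) h)⟩
  have hc0 : (m : O) * ∏ i, a i ≠ 0 := by
    refine mul_ne_zero ?_ ?_
    · exact Nat.cast_ne_zero.2 (by omega)
    · rw [Finset.prod_ne_zero_iff]
      intro i _ h
      exact ha.2.1 ⊥ Ideal.isPrime_bot i (by rw [h]; exact Ideal.zero_mem _)
  have hDspan : Ideal.span {(m : O) * ∏ i, a i} ≠ ⊥ := by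
    rw [Ne, Ideal.span_singleton_eq_bot]
    exact hc0
  let S : Finset (Ideal O) :=
    (UniqueFactorizationMonoid.normalizedFactors (Ideal.span {(m : O) * ∏ i, a i})).toFinset
  have hS : ∀ 𝔭, 𝔭 ∈ S ↔ 𝔭.IsPrime ∧ (m : O) * ∏ i, a i ∈ 𝔭 := by
    intro 𝔭
    rw [Multiset.mem_toFinset, Ideal.mem_normalizedFactors_iff hDspan,
      Ideal.span_singleton_le_iff_mem]
  have hS0 : ∀ 𝔭 ∈ S, 𝔭 ≠ ⊥ := by
    intro 𝔭 h𝔭 h
    have h1 := ((hS 𝔭).1 h𝔭).2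
    rw [h] at h1
    exact hc0 h1
  refine glogX (K := K) x S (fun 𝔭 h𝔭 =>
    ⟨Ideal.IsPrime.isMaximal ((hS 𝔭).1 h𝔭).1 (hS0 𝔭 h𝔭), hS0 𝔭 h𝔭⟩) ?_ ?_
  · intro 𝔭 h𝔭
    have hpp := ((hS 𝔭).1 h𝔭).1
    exact Pool.Agent.H945R2.R.GLORaux.bad' hB hE hT hR hA 𝔭 (hS0 𝔭 h𝔭) (hfin 𝔭 hpp (hS0 𝔭 h𝔭)) m hm hsq a ha x hx0
      hrel hgen hlin b htb
  · intro 𝔭 hpp h𝔭 D hD M hM hM2
    have hprod : (m : O) * ∏ i, a i ∉ 𝔭 := fun h => h𝔭 ((hS 𝔭).2 ⟨hpp, h⟩)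
    have hm𝔭 : (m : O) ∉ 𝔭 := fun h => hprod (Ideal.mul_mem_right _ _ h)
    have hap : ∀ i, a i ∉ 𝔭 := fun i h => hprod (Ideal.mul_mem_left _ _
      (Ideal.mem_of_dvd 𝔭 (Finset.dvd_prod_of_mem a (Finset.mem_univ i)) h))
    exact Pool.Agent.H945R2.R.GLORaux.good' (K := K) hG hA 𝔭 m hm hsq hm𝔭 a ha hap x hx0 hrel hgen b htb D hD M
      hM hM2


/-- Diagonal hypersurfaces. -/
theorem glorX {O K F : Type} [CommRing O] [IsDedekindDomain O] [Field K] [Algebra O K]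
    [IsFractionRing O K] [Field F] [Algebra K F] [Algebra O F] [IsScalarTower O K F] [CharZero K]
    (hfin : ∀ 𝔭 : Ideal O, 𝔭.IsPrime → 𝔭 ≠ ⊥ → Finite (O ⧸ 𝔭)) {k : ℕ} (m : ℕ) (hm : 3 ≤ m)
    (hsq : Squarefree m) (a : Fin (k + 2) → O) (ha : HypR m a)
    (x : Fin (k + 2) → F) (hx0 : x 0 = 1) (hrel : ∑ i, algebraMap O F (a i) * x i ^ m = 0)
    (hgen : IntermediateField.adjoin K (Set.range x) = ⊤)
    (hlin : ∀ e : ℕ, 1 ≤ e → e < m → LinearIndependent K (fun i => x i ^ e))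
    (b : Fin k → F) (htb : IsTranscendenceBasis K b) : HasModX O x :=
  glorX_aux (badM bad' (BADS_ok locs' DEGS_ok FINS_ok)) bade' badt' badr' (GOODM_ok GD1M_ok GD2M_ok)
    ARIR_ok (K := K) hfin m hm hsq a ha x hx0 hrel hgen hlin b htb

end Pool.Agent.W559.GF
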