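import Pool.Agent.W559.GF.Asm
import Pool.Agent.W559.GF.FLDX
import Pool.Agent.W559.GF.QuadX
import Pool.Agent.W559.GF.ModX
import Pool.Agent.W930.GF.Iso
import Pool.Agent.W398.GF.Mod
import Pool.Agent.W191.GF.Bc
import Pool.Agent.W177.GF.Flat
import Pool.Agent.W376.GF.Hyp
import Pool.Agent.W333.GF.Rel
import Pool.Agent.W397.GF.Diag
import Pool.Agent.W883.GF.Lin

/-!
Regular proper flat models over the ring of integers of smooth quadrics and of diagonal
hypersurfaces.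
-/

set_option autoImplicit false
set_option linter.unusedSectionVars false

open AlgebraicGeometry CategoryTheory Limits NumberField

namespace Pool.Agent.W559.GF

open Pool.Agent.H918R2.Quad Pool.Agent.H968R2.Quad MvPolynomial

attribute [local instance] MvPolynomial.gradedAlgebra

section

variable {K : Type} [Field K]

/-- The diagonal form. -/
noncomputable def dform {n : ℕ} (m : ℕ) (w : Fin (n + 2) → K) : MvPolynomial (Fin (n + 2)) K :=
  ∑ i, C (w i) * X i ^ m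

theorem dform_hom {n : ℕ} (m : ℕ) (w : Fin (n + 2) → K) : (dform m w).IsHomogeneous m := by
  refine IsHomogeneous.sum _ _ _ fun i _ => ?_
  have h := (isHomogeneous_C (Fin (n + 2)) (w i)).mul ((isHomogeneous_X K i).pow m)
  simpa using h

theorem dform_delta {n : ℕ} (m : ℕ) (w : Fin (n + 2) → K) :
    aeval (Fin.cons 1 X : Fin (n + 1 + 1) → MvPolynomial (Fin (n + 1)) K) (dform m w) =
      C (w 0) + ∑ i : Fin (n + 1), C (w i.succ) * X i ^ m := by
  rw [dform, map_sum, Fin.sum_univ_succ]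
  simp [algebraMap_eq]

theorem dform_ne {n : ℕ} (m : ℕ) (w : Fin (n + 2) → K) (hm : 1 ≤ m) (hw : w 1 ≠ 0) :
    dform m w ≠ 0 := by
  intro h
  have h1 := congrArg (coeff (Finsupp.single 1 m)) h
  rw [dform, coeff_sum, coeff_zero, Finset.sum_eq_single 1] at h1
  · rw [coeff_C_mul, coeff_X_pow, if_pos rfl, mul_one] at h1
    exact hw h1
  · intro l _ hl
    rw [coeff_C_mul, coeff_X_pow, if_neg, mul_zero]
    intro hh
    exact hl (Finsupp.single_left_injective (by omega) hh)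
  · intro hh
    exact absurd (Finset.mem_univ _) hh

theorem dform_X {n : ℕ} (m : ℕ) (w : Fin (n + 2) → K) (hm : 1 ≤ m) (hw : w 1 ≠ 0) :
    ¬ (X 0 ∣ dform m w) := by
  rintro ⟨Q, hQ⟩
  -- set `X 0 = 0`, the other variables to themselves
  have h1 := congrArg (coeff (Finsupp.single 1 m)) hQ
  rw [dform, coeff_sum, Finset.sum_eq_single 1] at h1
  · rw [coeff_C_mul, coeff_X_pow, if_pos rfl, mul_one, coeff_X_mul', if_neg] at h1
    · exact hw h1
    · intro hh
      rw [Finsupp.mem_support_iff, Finsupp.single_apply, if_neg one_ne_zero] at hh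
      exact hh rfl
  · intro l _ hl
    rw [coeff_C_mul, coeff_X_pow, if_neg, mul_zero]
    intro hh
    exact hl (Finsupp.single_left_injective (by omega) hh)
  · intro hh
    exact absurd (Finset.mem_univ _) hh

/-- The function field of a diagonal hypersurface and its homogeneous coordinates. -/
theorem fieldX [CharZero K] (n m : ℕ) (hn : 1 ≤ n) (hm : 2 ≤ m) (w : Fin (n + 2) → K)
    (hw : ∀ i, w i ≠ 0) :
    ∃ (F : Type) (_ : Field F) (_ : Algebra K F) (x : Fin (n + 2) → F) (b : Fin n → F),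
      x 0 = 1 ∧ (∑ i, algebraMap K F (w i) * x i ^ m = 0) ∧
      IntermediateField.adjoin K (Set.range x) = ⊤ ∧
      (∀ e : ℕ, 1 ≤ e → e < m → LinearIndependent K (fun i => x i ^ e)) ∧
      IsTranscendenceBasis K b ∧
      ∀ (e : ℕ) (G : MvPolynomial (Fin (n + 2)) K), G.IsHomogeneous e → aeval x G = 0 →
        dform m w ∣ G := by
  have hirr := Pool.Agent.H945R2.S.IRRM_ok n hn m (by omega) w hw
  have hprime : (Ideal.span {(C (w 0) + ∑ i : Fin (n + 1), C (w i.succ) * X i ^ m :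
      MvPolynomial (Fin (n + 1)) K)}).IsPrime := by
    rw [Ideal.span_singleton_prime hirr.ne_zero]
    exact hirr.prime
  have hdom : IsDomain (MvPolynomial (Fin (n + 1)) K ⧸
      Ideal.span {(C (w 0) + ∑ i : Fin (n + 1), C (w i.succ) * X i ^ m :
        MvPolynomial (Fin (n + 1)) K)}) := Ideal.Quotient.isDomain _
  obtain ⟨alg, x, b, hx0, hrel, hgen, hlin, htb, hker⟩ := fldX n m hm w hw
    (F := FractionRing (MvPolynomial (Fin (n + 1)) K ⧸
      Ideal.span {(C (w 0) + ∑ i : Fin (n + 1), C (w i.succ) * X i ^ m :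
        MvPolynomial (Fin (n + 1)) K)})) (RingEquiv.refl _)
  refine ⟨_, inferInstance, alg, x, b, hx0, hrel, hgen, hlin, htb, ?_⟩
  refine Pool.Agent.W333.GF.main K _ (n + 1) m (dform m w) (dform_hom m w)
    (dform_X m w (by omega) (hw 1)) x hx0 ?_
  intro P hP
  rw [dform_delta]
  exact hker P hP

end

/-- The common part. -/
theorem core {K : Type} [Field K] [NumberField K] (n m : ℕ) (hn : 1 ≤ n) (hm : 2 ≤ m)
    (w : Fin (n + 2) → K) (hw : ∀ i, w i ≠ 0)
    (hmod : ∀ (F : Type) [Field F] [Algebra K F] [Algebra (𝓞 K) F] [IsScalarTower (𝓞 K) K F]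
      (x : Fin (n + 2) → F) (b : Fin n → F), x 0 = 1 →
      (∑ i, algebraMap K F (w i) * x i ^ m = 0) →
      IntermediateField.adjoin K (Set.range x) = ⊤ →
      (∀ e : ℕ, 1 ≤ e → e < m → LinearIndependent K (fun i => x i ^ e)) →
      IsTranscendenceBasis K b → HasModX (𝓞 K) x)
    (Φ : MvPolynomial (Fin (n + 2)) K) (hΦ : Φ.IsHomogeneous m) (l : K) (hl : l ≠ 0)
    (g g' : Matrix (Fin (n + 2)) (Fin (n + 2)) K) (hg : g * g' = 1)
    (hdiag : C l * aeval (fun i => ∑ j, C (g i j) * X j :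
      Fin (n + 2) → MvPolynomial (Fin (n + 2)) K) Φ = ∑ i, C (w i) * X i ^ m)
    (Z : Scheme.{0}) (f : Z ⟶ Spec (CommRingCat.of K)) (hZ : IsHyp Φ f) :
    ∃ (Y : Scheme.{0}) (g : Y ⟶ Spec (CommRingCat.of (𝓞 K))), IsProper g ∧ Flat g ∧
      (∀ y : Y, ringKrullDim (Y.presheaf.stalk y) =
        (((Module.finrank (IsLocalRing.ResidueField (Y.presheaf.stalk y))
          (IsLocalRing.CotangentSpace (Y.presheaf.stalk y)) : ℕ) : ℕ∞) : WithBot ℕ∞)) ∧
      ∃ e : pullback g (Spec.map (CommRingCat.ofHom (algebraMap (𝓞 K) K))) ≅ Z,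
        e.hom ≫ f = pullback.snd g (Spec.map (CommRingCat.ofHom (algebraMap (𝓞 K) K))) := by
  obtain ⟨F, hF, alg, x, b, hx0, hrel, hgen, hlin, htb, hker⟩ := fieldX n m hn hm w hw
  let _ : Algebra (𝓞 K) F := ((algebraMap K F).comp (algebraMap (𝓞 K) K)).toAlgebra
  have _ : IsScalarTower (𝓞 K) K F := IsScalarTower.of_algebraMap_eq fun _ => rfl
  have hmodx := hmod F x b hx0 hrel hgen hlin htb
  have hxd : aeval x (dform m w) = 0 := by
    rw [← hrel, dform, map_sum]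
    simp
  have hlin2 := Pool.Agent.W883.GF.lin K F (n + 1) m (C l * Φ) (dform m w) (dform_hom m w) hm
    (dform_ne m w (by omega) (hw 1)) g g' hg (by
      rw [map_mul, dform, ← hdiag, ← algebraMap_eq, AlgHom.commutes]) x hxd hker
  obtain ⟨hy1, hy2, hy3, hy4⟩ := hlin2
  have hhom : (C l * Φ).IsHomogeneous m := by
    have := (isHomogeneous_C (Fin (n + 2)) l).mul hΦ
    simpa using this
  obtain ⟨hred, j, hj, hjf, hjr⟩ := hZ
  have hZ' : IsHyp (C l * Φ) f := by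
    refine ⟨hred, j, hj, hjf, ?_⟩
    rw [hjr]
    ext y
    have hy : (y.asHomogeneousIdeal.toIdeal).IsPrime := y.isPrime
    constructor
    · intro h
      exact Ideal.mul_mem_left _ _ h
    · intro h
      have h2 : Φ = C l⁻¹ * (C l * Φ) := by
        rw [← mul_assoc, ← C_mul, inv_mul_cancel₀ hl, C_1, one_mul]
      change Φ ∈ y.asHomogeneousIdeal.toIdeal
      rw [h2]
      exact Ideal.mul_mem_left _ _ h
  have hat := Pool.Agent.W376.GF.hyp K F (Fin (n + 2)) m (C l * Φ) hhom (by omega) _ hy2 hy1 hy4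
    Z f hZ'
  have hsep : IsSeparated f := by
    have h1 : IsSeparated (PNstr K (Fin (n + 2))) := by
      have h2 : IsSeparated (Proj.toSpecZero (homogeneousSubmodule (Fin (n + 2)) K)) :=
        inferInstance
      have h3 : IsSeparated (Spec.map (CommRingCat.ofHom
        (algebraMap K (homogeneousSubmodule (Fin (n + 2)) K 0)))) := inferInstance
      exact MorphismProperty.comp_mem @IsSeparated _ _ h2 h3
    rw [← hjf]
    infer_instance
  exact mainX Pool.Agent.W930.GF.iso Pool.Agent.W398.GF.modStm Pool.Agent.W191.GF.bc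
    Pool.Agent.W177.GF.flat x _ hmodx hy2 hy3 Z f hsep hat

/-- Smooth quadrics. -/
theorem quadrics {K : Type} [Field K] [NumberField K] (N : ℕ) (hN : 2 ≤ N)
    (Φ : MvPolynomial (Fin (N + 1)) K) (hΦ : Φ.IsHomogeneous 2)
    (hns : ∀ v : Fin (N + 1) → K, (∀ i, eval v (pderiv i Φ) = 0) → v = 0)
    (Z : Scheme.{0}) (f : Z ⟶ Spec (CommRingCat.of K)) (hZ : IsHyp Φ f) :
    ∃ (Y : Scheme.{0}) (g : Y ⟶ Spec (CommRingCat.of (𝓞 K))), IsProper g ∧ Flat g ∧
      (∀ y : Y, ringKrullDim (Y.presheaf.stalk y) =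
        (((Module.finrank (IsLocalRing.ResidueField (Y.presheaf.stalk y))
          (IsLocalRing.CotangentSpace (Y.presheaf.stalk y)) : ℕ) : ℕ∞) : WithBot ℕ∞)) ∧
      ∃ e : pullback g (Spec.map (CommRingCat.ofHom (algebraMap (𝓞 K) K))) ≅ Z,
        e.hom ≫ f = pullback.snd g (Spec.map (CommRingCat.ofHom (algebraMap (𝓞 K) K))) := by
  obtain ⟨n, rfl⟩ : ∃ n, N = n + 1 := ⟨N - 1, by omega⟩
  obtain ⟨g, g', w, hg, hw, hdiag⟩ := Pool.Agent.W397.GF.diag K (n + 1) Φ hΦ hns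
  refine core n 2 (by omega) le_rfl w hw ?_ Φ hΦ 1 one_ne_zero g g' hg ?_ Z f hZ
  · intro F _ _ _ _ x b hx0 hrel hgen _ htb
    exact quadX (K := K) (fun 𝔭 _ h => Ideal.finiteQuotientOfFreeOfNeBot 𝔭 h) w hw x hx0 hrel
      hgen b htb
  · rw [C_1, one_mul]
    exact hdiag

/-- Diagonal hypersurfaces. -/
theorem diagonal {K : Type} [Field K] [NumberField K] (m : ℕ) (hm3 : 3 ≤ m) (hsq : Squarefree m)
    (n : ℕ) (hn : 1 ≤ n) (a : Fin (n + 2) → 𝓞 K)
    (ha : ∀ i, Squarefree (Ideal.span {a i})) (hcop : ∀ i, IsCoprime (m : 𝓞 K) (a i))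
    (hp : ∀ 𝔭 : Ideal (𝓞 K), 𝔭.IsPrime → ∀ p : ℕ, p.Prime → p ∣ m → (p : 𝓞 K) ∈ 𝔭 →
      (p : 𝓞 K) ∉ 𝔭 ^ 2 ∨ ∃ r : ℕ, 2 ≤ r ∧ r ∣ p - 1 ∧ (p : 𝓞 K) ∈ 𝔭 ^ r ∧
        (p : 𝓞 K) ∉ 𝔭 ^ (r + 1) ∧
        ∀ i, ∃ (z : ℤ) (y : 𝓞 K), a i - z * y ^ p ∈ 𝔭 ^ (2 * r))
    (Φ : MvPolynomial (Fin (n + 2)) K) (hΦ : Φ.IsHomogeneous m) (l : K) (hl : l ≠ 0)
    (g g' : Matrix (Fin (n + 2)) (Fin (n + 2)) K) (hg : g * g' = 1)
    (hdiag : C l * aeval (fun i => ∑ j, C (g i j) * X j :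
      Fin (n + 2) → MvPolynomial (Fin (n + 2)) K) Φ =
        ∑ i, C (algebraMap (𝓞 K) K (a i)) * X i ^ m)
    (Z : Scheme.{0}) (f : Z ⟶ Spec (CommRingCat.of K)) (hZ : IsHyp Φ f) :
    ∃ (Y : Scheme.{0}) (g : Y ⟶ Spec (CommRingCat.of (𝓞 K))), IsProper g ∧ Flat g ∧
      (∀ y : Y, ringKrullDim (Y.presheaf.stalk y) =
        (((Module.finrank (IsLocalRing.ResidueField (Y.presheaf.stalk y))
          (IsLocalRing.CotangentSpace (Y.presheaf.stalk y)) : ℕ) : ℕ∞) : WithBot ℕ∞)) ∧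
      ∃ e : pullback g (Spec.map (CommRingCat.ofHom (algebraMap (𝓞 K) K))) ≅ Z,
        e.hom ≫ f = pullback.snd g (Spec.map (CommRingCat.ofHom (algebraMap (𝓞 K) K))) := by
  have hOK : Function.Injective (algebraMap (𝓞 K) K) := IsFractionRing.injective (𝓞 K) K
  have ha0 : ∀ i, a i ≠ 0 := by
    intro i h0
    have h1 := ha i
    rw [h0, Ideal.span_singleton_eq_bot.2 rfl] at h1
    exact not_squarefree_zero h1
  have haK : ∀ i, algebraMap (𝓞 K) K (a i) ≠ 0 := by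
    intro i h0
    exact ha0 i (hOK (by rw [h0, map_zero]))
  refine core n m hn (by omega) (fun i => algebraMap (𝓞 K) K (a i)) haK ?_ Φ hΦ l hl g g' hg hdiag
    Z f hZ
  intro F _ _ _ _ x b hx0 hrel hgen hlin htb
  refine glorX (K := K) (fun 𝔭 _ h => Ideal.finiteQuotientOfFreeOfNeBot 𝔭 h)
    m hm3 hsq a ⟨hp, fun 𝔭 h𝔭 i => Pool.Agent.H945R2.D.not_mem_sq _ (ha i) 𝔭 h𝔭, ?_⟩ x hx0 ?_
    hgen hlin b htb
  · intro 𝔭 h𝔭 hm𝔭 i hi
    obtain ⟨u, v, huv⟩ := hcop i
    apply h𝔭.ne_top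
    rw [Ideal.eq_top_iff_one, ← huv]
    exact 𝔭.add_mem (𝔭.mul_mem_left _ hm𝔭) (𝔭.mul_mem_left _ hi)
  · simpa only [← IsScalarTower.algebraMap_apply (𝓞 K) K F] using hrel

end Pool.Agent.W559.GF
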